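import Pool.Agent.WQ.Bridge

/-!
# MP_914906_al: the weight sequence from the ungraded quiver

`H` and `H'` are hereditary categories with Serre duality and tilting objects (definitions in
`Pool/Agent/WQ/Pub.lean`), for instance the categories of coherent sheaves on two weighted projective
lines (of any type).  If cluster-tilting objects of the two cluster categories have isomorphic ungraded
quivers, then the weight sequences agree up to a permutation.

The whole proof is in `Pool/Agent/WQ/`.  Outline: the dual collection `S j` of a cluster-tilting `T`, in `H`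
and `H[1]`; arrows `i → j` of degree `0`, `1` are counted by `Hom¹(S j, S i)`, `Hom²(S i, S j)`; a winding
number of every chordless cycle of the quiver depends only on the ungraded quiver (mutation of exceptional
pairs); so the matrix pencil `x U + Uᵗ` of the Euler form is determined up to conjugation by diagonal
matrices `(-x)^(n i)`; the multiplicities of the roots of unity as eigenvalues of the Coxeter
transformation give the numbers of tubes of each rank.
-/

set_option autoImplicit false

open CategoryTheory CategoryTheory.Abelian

namespace Pool.Agent.Results.MP_914906_al.WeightsFromQuiver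

open Pool.Agent.WQ.Pub

universe t v u w x

/-- The ungraded quiver of a cluster-tilting object determines the weight sequence. -/
theorem result
    {K : Type t} [Field K] [IsAlgClosed K] {H : Type u} [Category.{v} H] [Abelian H]
    [Linear K H] [HasExt.{w} H] (hH : Hered K H) (s : SerreDuality K H) (hE : EnoughTilting H)
    (p : List ℕ) (hp : HasWeights s.τ p)
    {I : Type x} [Finite I] {T : I → H} (hT : IsClusterTilting s.τ T)
    {K' : Type t} [Field K'] [IsAlgClosed K'] {H' : Type u} [Category.{v} H'] [Abelian H']
    [Linear K' H'] [HasExt.{w} H'] (hH' : Hered K' H') (s' : SerreDuality K' H')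
    (hE' : EnoughTilting H') (p' : List ℕ) (hp' : HasWeights s'.τ p')
    {I' : Type x} [Finite I'] {T' : I' → H'} (hT' : IsClusterTilting s'.τ T')
    (σ : I ≃ I') (hσ : ∀ i j, arrows K s.τ T i j = arrows K' s'.τ T' (σ i) (σ j)) :
    p.Perm p' := by
  classical
  have := Pool.Agent.WQ.Bridge.her hH
  have := Pool.Agent.WQ.Bridge.her hH'
  rw [List.perm_iff_count]
  intro n
  by_cases hn : 2 ≤ n
  · have h := Pool.Agent.WQ.main (Pool.Agent.WQ.Bridge.serre s)
      (Pool.Agent.WQ.Bridge.hasTilt hE) (Pool.Agent.WQ.Bridge.clusterTilting s hT)
      (Pool.Agent.WQ.Bridge.serre s') (Pool.Agent.WQ.Bridge.hasTilt hE')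
      (Pool.Agent.WQ.Bridge.clusterTilting s' hT') σ hσ n hn
    rw [Pool.Agent.WQ.Bridge.numTubes, Pool.Agent.WQ.Bridge.numTubes, hp.2 n hn,
      hp'.2 n hn] at h
    exact_mod_cast h
  · rw [List.count_eq_zero_of_not_mem (fun h => hn (hp.1 n h)),
      List.count_eq_zero_of_not_mem (fun h => hn (hp'.1 n h))]

end Pool.Agent.Results.MP_914906_al.WeightsFromQuiver
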